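import Pool.Agent.Helper42.RD.Goals1
import Pool.Agent.Helper90.RP.SUB

/-!
# Project RD, packet RD-SLG: the Selmer group of a datum is a subgroup
-/

namespace Pool.Agent.Helper88.RD

open NumberField Polynomial Module IsDedekindDomain Pool.Agent.Helper51.SigLeo
open Pool.Agent.Helper51.RP Pool.Agent.Helper42.RD WithZero
open Pool.Agent.Helper90.RP (exists_pull loc_pow loc_one loc_inv loc_mul loc_delta)

section primes

variable {p : ℕ} {M : Type} [Field M] [NumberField M]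

theorem ordv_mul (v : HeightOneSpectrum (𝓞 M)) (x y : Mˣ) :
    ordv v ((x * y : Mˣ) : M) = ordv v (x : M) + ordv v (y : M) := by
  unfold ordv
  rw [Units.val_mul, map_mul, log_mul, neg_add]
  · rw [Ne, Valuation.zero_iff]
    exact x.ne_zero
  · rw [Ne, Valuation.zero_iff]
    exact y.ne_zero

theorem ordv_inv (v : HeightOneSpectrum (𝓞 M)) (x : Mˣ) :
    ordv v ((x⁻¹ : Mˣ) : M) = -ordv v (x : M) := by
  unfold ordv
  rw [Units.val_inv_eq_inv_val, map_inv₀, log_inv]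

theorem ordv_one (v : HeightOneSpectrum (𝓞 M)) : ordv v ((1 : Mˣ) : M) = 0 := by
  unfold ordv
  rw [Units.val_one, map_one, log_one, neg_zero]

theorem ordv_pow (v : HeightOneSpectrum (𝓞 M)) (x : Mˣ) (n : ℕ) :
    ordv v ((x ^ n : Mˣ) : M) = n * ordv v (x : M) := by
  induction n with
  | zero => rw [pow_zero, ordv_one]; simp
  | succ n ih => rw [pow_succ, ordv_mul, ih]; push_cast; ring

theorem locPow_mul {v : HeightOneSpectrum (𝓞 M)} {x y : M} (hx : LocPow p v x)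
    (hy : LocPow p v y) : LocPow p v (x * y) := by
  obtain ⟨a, ha⟩ := hx
  obtain ⟨b, hb⟩ := hy
  refine ⟨a * b, ?_⟩
  have e : x * y * (a * b) ^ p - 1 = (x * a ^ p - 1) * (y * b ^ p) + (y * b ^ p - 1) := by
    rw [mul_pow]
    ring
  rw [e]
  have h1 : v.valuation M (y * b ^ p) ≤ 1 := by
    have e2 : y * b ^ p = (y * b ^ p - 1) + 1 := by ring
    rw [e2]
    exact Valuation.map_add_le _ hb.le (by rw [map_one])
  apply Valuation.map_add_lt _ _ hb
  rw [map_mul]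
  calc v.valuation M (x * a ^ p - 1) * v.valuation M (y * b ^ p) ≤
      v.valuation M (x * a ^ p - 1) * 1 := mul_le_mul_right h1 _
    _ < 1 := by rw [mul_one]; exact ha

theorem locPow_pow (v : HeightOneSpectrum (𝓞 M)) {z : M} (hz : z ≠ 0) : LocPow p v (z ^ p) := by
  refine ⟨z⁻¹, ?_⟩
  rw [← mul_pow, mul_inv_cancel₀ hz, one_pow, sub_self, map_zero]
  exact zero_lt_one

theorem locPow_inv {v : HeightOneSpectrum (𝓞 M)} {x : M} (hx : LocPow p v x) :
    LocPow p v x⁻¹ := by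
  obtain ⟨a, ha⟩ := hx
  refine ⟨a⁻¹, ?_⟩
  have hu0 : x * a ^ p ≠ 0 := by
    intro h
    rw [h, zero_sub, Valuation.map_neg, map_one] at ha
    exact lt_irrefl _ ha
  have hu : v.valuation M (x * a ^ p) = 1 := by
    have e2 : x * a ^ p = 1 + (x * a ^ p - 1) := by ring
    have h5 : v.valuation M (x * a ^ p - 1) < v.valuation M 1 := by
      rw [map_one]
      exact ha
    rw [e2, Valuation.map_add_eq_of_lt_left _ h5]
    exact map_one _
  have e : x⁻¹ * a⁻¹ ^ p - 1 = -(x * a ^ p)⁻¹ * (x * a ^ p - 1) := by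
    have h3 : x⁻¹ * a⁻¹ ^ p = (x * a ^ p)⁻¹ := by
      rw [inv_pow, mul_inv]
    rw [h3, mul_sub, neg_mul, inv_mul_cancel₀ hu0]
    ring
  rw [e, map_mul, Valuation.map_neg, map_inv₀, hu, inv_one, one_mul]
  exact ha

theorem locPow_mul_pow {v : HeightOneSpectrum (𝓞 M)} {c x : M} (h : LocPow p v (x * c ^ p)) :
    LocPow p v x := by
  obtain ⟨y, hy⟩ := h
  refine ⟨c * y, ?_⟩
  have e : x * (c * y) ^ p - 1 = x * c ^ p * y ^ p - 1 := by
    rw [mul_pow]
    ring
  rw [e]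
  exact hy

variable {K : Type} [Field K] [Algebra K M]

theorem al_ne_zero {R : Set (HeightOneSpectrum (𝓞 M))} {al : HeightOneSpectrum (𝓞 M) → K}
    (h : IsDat p R al) {w : HeightOneSpectrum (𝓞 M)} (hw : w ∈ R) :
    algebraMap K M (al w) ≠ 0 := by
  intro h0
  have h1 := h.unif w hw
  rw [h0] at h1
  unfold ordv at h1
  rw [map_zero, log_zero, neg_zero] at h1
  exact zero_ne_one h1

theorem locD_mul {R : Set (HeightOneSpectrum (𝓞 M))} {al : HeightOneSpectrum (𝓞 M) → K}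
    {w : HeightOneSpectrum (𝓞 M)} {x y : Mˣ} (hx : LocD p R al w (x : M))
    (hy : LocD p R al w (y : M)) : LocD p R al w ((x * y : Mˣ) : M) := by
  refine ⟨fun hw => ?_, fun hw => ?_⟩
  · rw [ordv_mul]
    exact dvd_add (hx.1 hw) (hy.1 hw)
  · obtain ⟨i, hi⟩ := hx.2 hw
    obtain ⟨j, hj⟩ := hy.2 hw
    refine ⟨i + j, ?_⟩
    have h1 := locPow_mul hi hj
    have e : (x : M) * algebraMap K M (al w) ^ i * ((y : M) * algebraMap K M (al w) ^ j) =
        ((x * y : Mˣ) : M) * algebraMap K M (al w) ^ (i + j) := by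
      rw [Units.val_mul, pow_add]
      ring
    rwa [e] at h1

theorem locD_pow {R : Set (HeightOneSpectrum (𝓞 M))} {al : HeightOneSpectrum (𝓞 M) → K}
    (w : HeightOneSpectrum (𝓞 M)) (z : Mˣ) : LocD p R al w ((z ^ p : Mˣ) : M) := by
  refine ⟨fun _ => ?_, fun _ => ⟨0, ?_⟩⟩
  · rw [ordv_pow]
    exact dvd_mul_right _ _
  · rw [pow_zero, mul_one, Units.val_pow_eq_pow_val]
    exact locPow_pow w z.ne_zero

theorem locD_inv (hp : 0 < p) {R : Set (HeightOneSpectrum (𝓞 M))}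
    {al : HeightOneSpectrum (𝓞 M) → K}
    (h : IsDat p R al) {w : HeightOneSpectrum (𝓞 M)} {x : Mˣ} (hx : LocD p R al w (x : M)) :
    LocD p R al w ((x⁻¹ : Mˣ) : M) := by
  refine ⟨fun hw => ?_, fun hw => ?_⟩
  · rw [ordv_inv]
    exact (dvd_neg).2 (hx.1 hw)
  · obtain ⟨i, hi⟩ := hx.2 hw
    have h0 := al_ne_zero h hw
    refine ⟨(p - 1) * i, ?_⟩
    have h1 := locPow_inv hi
    refine locPow_mul_pow (c := (algebraMap K M (al w) ^ i)⁻¹) ?_
    have e : ((x⁻¹ : Mˣ) : M) * algebraMap K M (al w) ^ ((p - 1) * i) *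
        (algebraMap K M (al w) ^ i)⁻¹ ^ p = ((x : M) * algebraMap K M (al w) ^ i)⁻¹ := by
      have h2 : (algebraMap K M (al w) ^ i) ^ p =
          algebraMap K M (al w) ^ ((p - 1) * i) * algebraMap K M (al w) ^ i := by
        rw [← pow_mul, ← pow_add]
        congr 1
        obtain ⟨q, rfl⟩ : ∃ q, p = q + 1 := ⟨p - 1, by omega⟩
        rw [Nat.add_sub_cancel]
        ring
      have h3 : algebraMap K M (al w) ^ ((p - 1) * i) ≠ 0 := pow_ne_zero _ h0
      have h4 : algebraMap K M (al w) ^ i ≠ 0 := pow_ne_zero _ h0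
      rw [Units.val_inv_eq_inv_val, inv_pow, h2]
      field_simp
    rw [e]
    exact h1

theorem locD_delta {R : Set (HeightOneSpectrum (𝓞 M))} {al : HeightOneSpectrum (𝓞 M) → K}
    (h : IsDat p R al) (δ : M ≃ₐ[K] M) (w : HeightOneSpectrum (𝓞 M)) (x : M)
    (hx : ∀ w' : HeightOneSpectrum (𝓞 M), LocD p R al w' x) : LocD p R al w (δ x) := by
  obtain ⟨w', hw', hval⟩ := exists_pull (K := K) δ w
  refine ⟨fun hw => ?_, fun hw => ?_⟩
  · have h1 : w' ∉ R := fun h2 => hw (h.stable w' h2 w ⟨δ, hval⟩)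
    have h2 : ordv w (δ x) = ordv w' x := by
      unfold ordv
      rw [hval]
    rw [h2]
    exact (hx w').1 h1
  · have h1 : w' ∈ R := h.stable w hw w' hw'
    obtain ⟨i, y, hy⟩ := (hx w').2 h1
    refine ⟨i, δ y, ?_⟩
    rw [h.const w hw w' hw', ← hval] at hy
    have e : δ (x * algebraMap K M (al w) ^ i * y ^ p - 1) =
        δ x * algebraMap K M (al w) ^ i * δ y ^ p - 1 := by
      rw [map_sub, map_mul, map_mul, map_pow, map_pow, map_one, AlgEquiv.commutes]
    rwa [e] at hy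

end primes

/-- Packet RD-SLG. -/
theorem d_slg : D_SLG := by
  intro p _ k _ _ L K M _ _ _ _ _ δ P T R al hdat
  have hp : 0 < p := (Fact.out : p.Prime).pos
  have hpw : ∀ x : Mˣ, Pw p x → SelD L (above T) P δ R al x := by
    rintro x ⟨z, rfl⟩
    exact ⟨⟨pol P δ z, by rw [map_pow]⟩, fun w => locD_pow w z, loc_pow L z⟩
  refine ⟨{ carrier := {x | SelD L (above T) P δ R al x}
            one_mem' := hpw 1 ⟨1, by rw [one_pow]⟩
            mul_mem' := ?_
            inv_mem' := ?_ }, fun x => Iff.rfl, hpw, ?_⟩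
  · rintro x y ⟨x1, x2, x3⟩ ⟨y1, y2, y3⟩
    refine ⟨?_, fun w => locD_mul (x2 w) (y2 w), loc_mul L x3 y3⟩
    obtain ⟨c, hc⟩ := x1
    obtain ⟨d, hd⟩ := y1
    exact ⟨c * d, by rw [map_mul, hc, hd, mul_pow]⟩
  · rintro x ⟨x1, x2, x3⟩
    refine ⟨?_, fun w => locD_inv hp hdat (x2 w), loc_inv L x3⟩
    obtain ⟨c, hc⟩ := x1
    exact ⟨c⁻¹, by rw [map_inv, hc, inv_pow]⟩
  · rintro x ⟨x1, x2, x3⟩
    refine ⟨?_, fun w => locD_delta hdat δ w (x : M) x2, loc_delta L δ x3⟩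
    obtain ⟨D, hD⟩ : ∃ D : Mˣ →* Mˣ, D = Units.map ((δ : M →+* M) : M →* M) := ⟨_, rfl⟩
    rw [← hD]
    have hDv : ∀ y : Mˣ, ((D y : Mˣ) : M) = δ (y : M) := fun y => by rw [hD]; rfl
    have hcomm : ∀ y : Mˣ, pol P δ (D y) = D (pol P δ y) := by
      intro y
      unfold pol
      rw [MonoidHom.finsetProd_apply, MonoidHom.finsetProd_apply, map_prod]
      apply Finset.prod_congr rfl
      intro j _
      rw [MonoidHom.pow_apply, MonoidHom.pow_apply, map_pow]
      congr 1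
      apply Units.ext
      rw [hDv]
      show (δ ^ j) ((D y : Mˣ) : M) = δ ((δ ^ j) (y : M))
      rw [hDv, ← AlgEquiv.mul_apply, ← AlgEquiv.mul_apply, ← pow_succ, ← pow_succ']
    obtain ⟨c, hc⟩ := x1
    exact ⟨D c, by rw [hcomm, hc, map_pow]⟩

end Pool.Agent.Helper88.RD
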